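import Pool.Agent.helper91.SI.Spec3

/-!
# SI, row PX3 (helper90): the proof of helper22 for PX with CI3 instead of CIR
-/

set_option autoImplicit false

namespace Pool.Agent.helper91.SI

open Pool.Agent.helper20.IG (IsIndepDom IsISet iGraph)

theorem PX3 (hCI3 : CI3_stmt) : PX3_stmt := by
  intro V _ G h3 h4 hi hP
  obtain ⟨x, x', hx, hx', e0, e1, e2, e3, hne5⟩ := hP
  obtain ⟨R, z, hz, hzR, -, hS⟩ := hCI3 V G h3 h4 hi x hx
  obtain ⟨R', z', hz', hzR', -, hS'⟩ := hCI3 V G h3 h4 hi x' hx'
  have key : ∀ (y : ZMod 7 → {S : Finset V // IsISet G S}) (Q : Finset V) (w : ZMod 7 → V),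
      (∀ t, (y t).1 = Q ∪ {w (5 * t), w (5 * t + 2), w (5 * t + 4)}) →
      (y 0).1 = Q ∪ {w 0, w 2, w 4} ∧ (y 1).1 = Q ∪ {w 5, w 0, w 2} ∧ (y 2).1 = Q ∪ {w 3, w 5, w 0} ∧
      (y 3).1 = Q ∪ {w 1, w 3, w 5} ∧ (y 5).1 = Q ∪ {w 4, w 6, w 1} := by
    intro y Q w h
    refine ⟨?_, ?_, ?_, ?_, ?_⟩
    · have h1 := h 0
      rwa [show (5 * 0 + 4 : ZMod 7) = 4 from by decide, show (5 * 0 + 2 : ZMod 7) = 2 from by decide,
        show (5 * 0 : ZMod 7) = 0 from by decide] at h1
    · have h1 := h 1
      rwa [show (5 * 1 + 4 : ZMod 7) = 2 from by decide, show (5 * 1 + 2 : ZMod 7) = 0 from by decide,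
        show (5 * 1 : ZMod 7) = 5 from by decide] at h1
    · have h1 := h 2
      rwa [show (5 * 2 + 4 : ZMod 7) = 0 from by decide, show (5 * 2 + 2 : ZMod 7) = 5 from by decide,
        show (5 * 2 : ZMod 7) = 3 from by decide] at h1
    · have h1 := h 3
      rwa [show (5 * 3 + 4 : ZMod 7) = 5 from by decide, show (5 * 3 + 2 : ZMod 7) = 3 from by decide,
        show (5 * 3 : ZMod 7) = 1 from by decide] at h1
    · have h1 := h 5
      rwa [show (5 * 5 + 4 : ZMod 7) = 1 from by decide, show (5 * 5 + 2 : ZMod 7) = 6 from by decide,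
        show (5 * 5 : ZMod 7) = 4 from by decide] at h1
  obtain ⟨s0, s1, s2, s3, s5⟩ := key x R z hS
  obtain ⟨t0, t1, t2, t3, t5⟩ := key x' R' z' hS'
  have hne : ∀ {a b : ZMod 7}, a ≠ b → z a ≠ z b := fun h => hz.1.ne h
  have z4 : z 4 = z' 4 := by
    have m1 : z 4 ∈ (x 0).1 := by rw [s0]; simp
    have m2 : z 4 ∉ (x 1).1 := by
      rw [s1]
      simp only [Finset.mem_union, Finset.mem_insert, Finset.mem_singleton, not_or]
      exact ⟨hzR 4, hne (by decide), hne (by decide), hne (by decide)⟩
    rw [e0, t0] at m1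
    rw [e1, t1] at m2
    simp only [Finset.mem_union, Finset.mem_insert, Finset.mem_singleton] at m1 m2
    tauto
  have z5 : z 5 = z' 5 := by
    have m1 : z 5 ∈ (x 1).1 := by rw [s1]; simp
    have m2 : z 5 ∉ (x 0).1 := by
      rw [s0]
      simp only [Finset.mem_union, Finset.mem_insert, Finset.mem_singleton, not_or]
      exact ⟨hzR 5, hne (by decide), hne (by decide), hne (by decide)⟩
    rw [e1, t1] at m1
    rw [e0, t0] at m2
    simp only [Finset.mem_union, Finset.mem_insert, Finset.mem_singleton] at m1 m2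
    tauto
  have z2 : z 2 = z' 2 := by
    have m1 : z 2 ∈ (x 1).1 := by rw [s1]; simp
    have m2 : z 2 ∉ (x 2).1 := by
      rw [s2]
      simp only [Finset.mem_union, Finset.mem_insert, Finset.mem_singleton, not_or]
      exact ⟨hzR 2, hne (by decide), hne (by decide), hne (by decide)⟩
    rw [e1, t1] at m1
    rw [e2, t2] at m2
    simp only [Finset.mem_union, Finset.mem_insert, Finset.mem_singleton] at m1 m2
    tauto
  have z3 : z 3 = z' 3 := by
    have m1 : z 3 ∈ (x 2).1 := by rw [s2]; simp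
    have m2 : z 3 ∉ (x 1).1 := by
      rw [s1]
      simp only [Finset.mem_union, Finset.mem_insert, Finset.mem_singleton, not_or]
      exact ⟨hzR 3, hne (by decide), hne (by decide), hne (by decide)⟩
    rw [e2, t2] at m1
    rw [e1, t1] at m2
    simp only [Finset.mem_union, Finset.mem_insert, Finset.mem_singleton] at m1 m2
    tauto
  have z0 : z 0 = z' 0 := by
    have m1 : z 0 ∈ (x 2).1 := by rw [s2]; simp
    have m2 : z 0 ∉ (x 3).1 := by
      rw [s3]
      simp only [Finset.mem_union, Finset.mem_insert, Finset.mem_singleton, not_or]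
      exact ⟨hzR 0, hne (by decide), hne (by decide), hne (by decide)⟩
    rw [e2, t2] at m1
    rw [e3, t3] at m2
    simp only [Finset.mem_union, Finset.mem_insert, Finset.mem_singleton] at m1 m2
    tauto
  have z1 : z 1 = z' 1 := by
    have m1 : z 1 ∈ (x 3).1 := by rw [s3]; simp
    have m2 : z 1 ∉ (x 2).1 := by
      rw [s2]
      simp only [Finset.mem_union, Finset.mem_insert, Finset.mem_singleton, not_or]
      exact ⟨hzR 1, hne (by decide), hne (by decide), hne (by decide)⟩
    rw [e3, t3] at m1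
    rw [e2, t2] at m2
    simp only [Finset.mem_union, Finset.mem_insert, Finset.mem_singleton] at m1 m2
    tauto
  have z6 : z 6 = z' 6 := by
    by_contra hc
    have a1 : G.Adj (z 5) (z 6) := by
      have h := hz.2 5
      rwa [show (5 + 1 : ZMod 7) = 6 from by decide] at h
    have a2 : G.Adj (z 6) (z 0) := by
      have h := hz.2 6
      rwa [show (6 + 1 : ZMod 7) = 0 from by decide] at h
    have a3 : G.Adj (z' 5) (z' 6) := by
      have h := hz'.2 5
      rwa [show (5 + 1 : ZMod 7) = 6 from by decide] at h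
    have a4 : G.Adj (z' 6) (z' 0) := by
      have h := hz'.2 6
      rwa [show (6 + 1 : ZMod 7) = 0 from by decide] at h
    rw [← z5] at a3
    rw [← z0] at a4
    exact h4 (z 5) (z 6) (z 0) (z' 6) a1 a2 a4.symm a3.symm (hne (by decide)) hc
  have hR : R = R' := by
    ext r
    have hs : r ∈ (x 0).1 ↔ r ∈ (x' 0).1 := by rw [e0]
    rw [s0, t0] at hs
    simp only [Finset.mem_union, Finset.mem_insert, Finset.mem_singleton] at hs
    constructor
    · intro hr
      rcases hs.1 (Or.inl hr) with h | h | h | h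
      · exact h
      · exact absurd hr (by rw [h, ← z0]; exact hzR 0)
      · exact absurd hr (by rw [h, ← z2]; exact hzR 2)
      · exact absurd hr (by rw [h, ← z4]; exact hzR 4)
    · intro hr
      rcases hs.2 (Or.inl hr) with h | h | h | h
      · exact h
      · exact absurd hr (by rw [h, z0]; exact hzR' 0)
      · exact absurd hr (by rw [h, z2]; exact hzR' 2)
      · exact absurd hr (by rw [h, z4]; exact hzR' 4)
  apply hne5
  apply Subtype.ext
  rw [s5, t5, hR, z4, z6, z1]

end Pool.Agent.helper91.SI
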