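import Pool.Agent.helper91.SI.Spec

/-!
# SI, row SLD: private neighbours (helper90)
-/

set_option autoImplicit false

namespace Pool.Agent.helper91.SI

open Pool.Agent.helper20.IG (IsIndepDom IsISet iGraph)

theorem SLD : SLD_stmt := by
  intro V _ G S s v hT hS
  obtain ⟨hI, hs, hv, hsv, hI'⟩ := hS
  have hvS' : v ∈ insert v (S.erase s) := Finset.mem_insert_self _ _
  refine ⟨?_, ?_⟩
  · intro t ht htv
    by_contra hne
    have htS' : t ∈ insert v (S.erase s) :=
      Finset.mem_insert_of_mem (Finset.mem_erase.mpr ⟨hne, ht⟩)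
    exact hI'.1.1 t htS' v hvS' htv
  · intro x hsx hxv
    have hxS : x ∉ S := fun hx => hI.1.1 s hs x hx hsx
    have hxS' : x ∉ insert v (S.erase s) := by
      intro hx
      rcases Finset.mem_insert.mp hx with h | h
      · exact hxv h
      · exact hxS (Finset.mem_of_mem_erase h)
    obtain ⟨t, ht, htx⟩ := hI'.1.2 x hxS'
    rcases Finset.mem_insert.mp ht with h | h
    · subst h
      exact (hT s t x hsv htx hsx).elim
    · exact ⟨t, Finset.mem_of_mem_erase h, Finset.ne_of_mem_erase h, htx⟩

end Pool.Agent.helper91.SI
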